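import Pool.Agent.Q233.SG.Hom

/-!
# The scaling quotient of the space of mm-spaces is contractible, in both topologies

`Sig k` is the quotient of the space of the non-trivial mm-spaces by the scaling action of the
positive real numbers; `k` is the box distance or the observable distance.
-/

set_option autoImplicit false

namespace Pool.Agent.Results.MP_3020f5_gt.ScalingQuotientContractible

open Q233.SG

/-- The scaling quotient is contractible, for the box and for the concentration topology. -/
theorem result : ContractibleSpace (Sig Kind.box) ∧ ContractibleSpace (Sig Kind.conc) :=
  ⟨contractible_Sig Kind.box, contractible_Sig Kind.conc⟩

end Pool.Agent.Results.MP_3020f5_gt.ScalingQuotientContractible
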